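import Pool.Agent.H54.G.W237.RK.LDefs

/-!
# L3: every integral element of `Om p` is congruent to `0` or a root of unity of order prime to `p`
-/

set_option autoImplicit false

namespace Pool.Agent.W571.RK

open Pool.Agent.W237.RK Polynomial

variable {p : ℕ} [Fact p.Prime]

lemma norm_p_Om : ‖(p : Om p)‖ = (p : ℝ)⁻¹ := by
  have h := PadicAlgCl.norm_extends p (p : ℚ_[p])
  rw [Padic.norm_p] at h
  rw [← h]
  congr 1

lemma norm_p_lt_one : ‖(p : Om p)‖ < 1 := by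
  rw [norm_p_Om]
  exact inv_lt_one_of_one_lt₀ (by exact_mod_cast (Fact.out : p.Prime).one_lt)

lemma norm_natCast_le_one (n : ℕ) : ‖(n : Om p)‖ ≤ 1 :=
  IsUltrametricDist.norm_natCast_le_one (Om p) n

lemma norm_sub_le_max' (x y : Om p) : ‖x - y‖ ≤ max ‖x‖ ‖y‖ := by
  have h := IsUltrametricDist.norm_add_le_max x (-y)
  rwa [norm_neg, ← sub_eq_add_neg] at h

/-- Frobenius is injective modulo the maximal ideal. -/
lemma norm_sub_one_of_pow_p (z : Om p) (hz : ‖z‖ ≤ 1) (h : ‖z ^ p - 1‖ < 1) : ‖z - 1‖ < 1 := by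
  have hp : p.Prime := Fact.out
  have hz1 : ‖z - 1‖ ≤ 1 := by
    refine (norm_sub_le_max' z 1).trans (max_le hz (by simp))
  have key := add_pow_prime_eq' hp (z - 1) (1 : Om p)
  rw [sub_add_cancel, one_pow] at key
  set S : Om p := ∑ k ∈ Finset.Ioo 0 p,
      (z - 1) ^ k * 1 ^ (p - k) * ((p.choose k / p : ℕ) : Om p) with hS
  have hSn : ‖S‖ ≤ 1 := by
    rw [hS]
    refine IsUltrametricDist.norm_sum_le_of_forall_le_of_nonneg zero_le_one fun k _ => ?_
    rw [one_pow, mul_one, norm_mul, norm_pow]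
    exact mul_le_one₀ (pow_le_one₀ (norm_nonneg _) hz1) (norm_nonneg _) (norm_natCast_le_one _)
  have h1 : (z - 1) ^ p = (z ^ p - 1) - p * S := by
    rw [key]; ring
  have h2 : ‖(z - 1) ^ p‖ < 1 := by
    rw [h1]
    refine (norm_sub_le_max' _ _).trans_lt (max_lt h ?_)
    rw [norm_mul]
    calc ‖(p : Om p)‖ * ‖S‖ ≤ ‖(p : Om p)‖ * 1 :=
          mul_le_mul_of_nonneg_left hSn (norm_nonneg _)
      _ < 1 := by rw [mul_one]; exact norm_p_lt_one
  rw [norm_pow] at h2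
  exact (pow_lt_one_iff_of_nonneg (norm_nonneg _) hp.ne_zero).1 h2

lemma norm_sub_one_of_pow_pow (r : ℕ) (z : Om p) (hz : ‖z‖ ≤ 1) (h : ‖z ^ (p ^ r) - 1‖ < 1) :
    ‖z - 1‖ < 1 := by
  induction r generalizing z with
  | zero => simpa using h
  | succ r ih =>
    refine norm_sub_one_of_pow_p z hz (ih (z ^ p) ?_ ?_)
    · rw [norm_pow]; exact pow_le_one₀ (norm_nonneg _) hz
    · rwa [← pow_mul, ← pow_succ']

/-- some power is close to `1` -/
lemma exists_pow_close (x : Om p) (hx : ‖x‖ = 1) : ∃ l : ℕ, 0 < l ∧ ‖x ^ l - 1‖ < 1 := by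
  have hint : IsIntegral ℚ_[p] x := (Algebra.IsAlgebraic.isAlgebraic x).isIntegral
  let W : Submodule ℚ_[p] (Om p) := Subalgebra.toSubmodule (Algebra.adjoin ℚ_[p] {x})
  have hfin : FiniteDimensional ℚ_[p] W := Module.Finite.iff_fg.2 hint.fg_adjoin_singleton
  have hprop : ProperSpace W := FiniteDimensional.proper ℚ_[p] W
  let u : ℕ → W := fun n => ⟨x ^ n, pow_mem (Algebra.self_mem_adjoin_singleton ℚ_[p] x) n⟩
  have hu : ∀ n, u n ∈ Metric.closedBall (0 : W) 1 := by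
    intro n
    rw [mem_closedBall_zero_iff]
    show ‖x ^ n‖ ≤ 1
    rw [norm_pow, hx, one_pow]
  obtain ⟨a, -, φ, hφ, hlim⟩ := (isCompact_closedBall (0 : W) 1).tendsto_subseq hu
  have hc := hlim.cauchySeq
  rw [Metric.cauchySeq_iff'] at hc
  obtain ⟨n, hn⟩ := hc 1 one_pos
  have h1 := hn (n + 1) (Nat.le_succ n)
  rw [dist_eq_norm] at h1
  have h2 : ‖x ^ φ (n + 1) - x ^ φ n‖ < 1 := h1
  have h3 : φ n < φ (n + 1) := hφ (Nat.lt_succ_self n)
  refine ⟨φ (n + 1) - φ n, by omega, ?_⟩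
  have h4 : x ^ φ (n + 1) - x ^ φ n = x ^ φ n * (x ^ (φ (n + 1) - φ n) - 1) := by
    rw [mul_sub, ← pow_add, mul_one]
    congr 2
    omega
  rw [h4, norm_mul, norm_pow, hx, one_pow, one_mul] at h2
  exact h2

theorem l3 : S_RES := by
  intro p _ x hx
  have hp : p.Prime := Fact.out
  rcases hx.lt_or_eq with h | h
  · exact ⟨0, Or.inl rfl, by simpa using h⟩
  obtain ⟨l, hl, hlx⟩ := exists_pow_close x h
  obtain ⟨r, M, hM, rfl⟩ := Nat.exists_eq_pow_mul_and_not_dvd hl.ne' p hp.ne_one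
  have h1 : ‖x ^ M - 1‖ < 1 := by
    refine norm_sub_one_of_pow_pow r (x ^ M) ?_ ?_
    · rw [norm_pow, h, one_pow]
    · rwa [← pow_mul, mul_comm M]
  have hM0 : 0 < M := Nat.pos_of_ne_zero fun h0 => hM (h0 ▸ dvd_zero p)
  have : NeZero M := ⟨hM0.ne'⟩
  have : NeZero (M : Om p) := ⟨by exact_mod_cast hM0.ne'⟩
  obtain ⟨ζ, hζ⟩ := HasEnoughRootsOfUnity.exists_primitiveRoot (Om p) M
  have h2 := congrArg (Polynomial.eval x) (X_pow_sub_one_eq_prod hM0 hζ)
  rw [Polynomial.eval_prod] at h2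
  simp only [eval_sub, eval_pow, eval_X, eval_one, eval_C] at h2
  by_contra hcon
  push Not at hcon
  have h3 : (1 : ℝ) ≤ ‖x ^ M - 1‖ := by
    rw [h2, norm_prod]
    refine Finset.one_le_prod fun η hη => ?_
    refine hcon η (Or.inr ⟨M, hM, ?_⟩)
    rwa [mem_nthRootsFinset hM0] at hη
  exact absurd h1 (not_lt.2 h3)

end Pool.Agent.W571.RK
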